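import Pool.Agent.Helper358.Compl

set_option autoImplicit false

namespace Pool.Agent.Results.MP_882ac6_an.AllPowers

open Pool.Agent.Helper358.LOne Pool.Agent.Helper358.Compl

universe u v

/-- For every uncountable (discrete) `κ` and every nonempty index type `ι` (in particular for
`ι = Fin n` with `n ≥ 1` and for `ι = ℕ`, i.e. for all powers with `1 ≤ n ≤ ω`), the Banach spaces
`C(B(κ)^ι)` and `C(A(κ)^ℕ)` are not isomorphic. (`B(κ) = Ball κ`, and `A(κ) = OnePoint κ`.) -/
theorem result (κ : Type u) [TopologicalSpace κ] [DiscreteTopology κ] [Uncountable κ]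
    (ι : Type v) [Nonempty ι] :
    IsEmpty (C(ι → Ball κ, ℝ) ≃L[ℝ] C(ℕ → OnePoint κ, ℝ)) := by
  refine ⟨fun e => ?_⟩
  obtain ⟨i⟩ := ‹Nonempty ι›
  let p : C(ι → Ball κ, Ball κ) := ⟨fun x => x i, continuous_apply i⟩
  let d : C(Ball κ, ι → Ball κ) := ⟨fun x _ => x, continuous_pi fun _ => continuous_id⟩
  let S : C(Ball κ, ℝ) →L[ℝ] C(ι → Ball κ, ℝ) :=
    { toFun := fun g => g.comp p
      map_add' := fun _ _ => by ext x; rfl
      map_smul' := fun _ _ => by ext x; rfl
      cont := ContinuousMap.continuous_precomp p }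
  let T : C(ι → Ball κ, ℝ) →L[ℝ] C(Ball κ, ℝ) :=
    { toFun := fun g => g.comp d
      map_add' := fun _ _ => by ext x; rfl
      map_smul' := fun _ _ => by ext x; rfl
      cont := ContinuousMap.continuous_precomp d }
  refine no_compl ((e : C(ι → Ball κ, ℝ) →L[ℝ] C(ℕ → OnePoint κ, ℝ)).comp S)
    (T.comp (e.symm : C(ℕ → OnePoint κ, ℝ) →L[ℝ] C(ι → Ball κ, ℝ))) fun g => ?_
  change T (e.symm (e (S g))) = g
  rw [ContinuousLinearEquiv.symm_apply_apply]
  ext x
  rfl

end Pool.Agent.Results.MP_882ac6_an.AllPowers
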