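import Pool.Agent.Helper358.LOne

set_option autoImplicit false

namespace Pool.Agent.Results.MP_882ac6_an.FinitePowers

open Pool.Agent.Helper358.LOne

universe u

/-- For every uncountable (discrete) `κ` and every finite `m` the Banach spaces `C(B(κ)^m)` and
`C(A(κ)^ℕ)` are not isomorphic. (`B(κ) = Ball κ`, and `A(κ) = OnePoint κ`.) -/
theorem result (κ : Type u) [TopologicalSpace κ] [DiscreteTopology κ] [Uncountable κ] (m : ℕ) :
    IsEmpty (C(Fin m → Ball κ, ℝ) ≃L[ℝ] C(ℕ → OnePoint κ, ℝ)) := by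
  refine ⟨fun e => ?_⟩
  obtain ⟨K, hK⟩ : ∃ K : ℝ, ∀ g, ‖e g‖ ≤ K * ‖g‖ :=
    ⟨_, (e : C(Fin m → Ball κ, ℝ) →L[ℝ] C(ℕ → OnePoint κ, ℝ)).le_opNorm⟩
  have hK0 : 0 < |K| + 1 := by positivity
  refine A_not_embed m (e.symm : C(ℕ → OnePoint κ, ℝ) →L[ℝ] C(Fin m → Ball κ, ℝ))
    (c := (|K| + 1)⁻¹) (inv_pos.mpr hK0) fun g => ?_
  have h1 : ‖g‖ ≤ (|K| + 1) * ‖e.symm g‖ := by
    have h2 := hK (e.symm g)
    rw [ContinuousLinearEquiv.apply_symm_apply] at h2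
    refine h2.trans (mul_le_mul_of_nonneg_right ?_ (norm_nonneg _))
    linarith [le_abs_self K]
  calc (|K| + 1)⁻¹ * ‖g‖ ≤ (|K| + 1)⁻¹ * ((|K| + 1) * ‖e.symm g‖) :=
        mul_le_mul_of_nonneg_left h1 (inv_pos.mpr hK0).le
    _ = ‖e.symm g‖ := by rw [inv_mul_cancel_left₀ hK0.ne']

end Pool.Agent.Results.MP_882ac6_an.FinitePowers
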